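import Mathlib

/-! Project PV (MP_b08f5f_an), zero-one law, block ZB: the canonical limit, and the weights. -/

set_option autoImplicit false

namespace Pool.Agent.Lib_helper25.PV

open MeasureTheory Filter Topology Set
open scoped ComplexConjugate

noncomputable section

theorem Z_canon {α : Type*} [MeasurableSpace α] (F : ℕ → α → ℂ) (hF : ∀ n, Measurable (F n)) :
    ∃ L : α → ℂ, Measurable L ∧ (∀ x l, Tendsto (fun n => F n x) atTop (𝓝 l) → L x = l) ∧
      ∀ x, (¬ ∃ l, Tendsto (fun n => F n x) atTop (𝓝 l)) → L x = 0 := by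
  classical
  have hset : MeasurableSet {x | ∃ l, Tendsto (fun n => F n x) atTop (𝓝 l)} :=
    measurableSet_exists_tendsto hF
  set S : Set α := {x | ∃ l, Tendsto (fun n => F n x) atTop (𝓝 l)} with hS
  have hG : ∀ x, Tendsto (fun n => S.indicator (F n) x) atTop
      (𝓝 (if h : x ∈ S then Classical.choose h else 0)) := by
    intro x
    by_cases h : x ∈ S
    · rw [dif_pos h]
      have := Classical.choose_spec h
      refine this.congr fun n => ?_
      rw [Set.indicator_of_mem h]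
    · rw [dif_neg h]
      refine tendsto_const_nhds.congr fun n => ?_
      rw [Set.indicator_of_notMem h]
  refine ⟨fun x => if h : x ∈ S then Classical.choose h else 0, ?_, ?_, ?_⟩
  · exact measurable_of_tendsto_metrizable (fun n => (hF n).indicator hset)
      (tendsto_pi_nhds.2 hG)
  · intro x l hl
    have hx : x ∈ S := ⟨l, hl⟩
    show (if h : x ∈ S then Classical.choose h else 0) = l
    rw [dif_pos hx]
    exact tendsto_nhds_unique (Classical.choose_spec hx) hl
  · intro x hx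
    have hx' : x ∉ S := hx
    show (if h : x ∈ S then Classical.choose h else 0) = 0
    rw [dif_neg hx']

/-- the integers `k` with `exp (i k θ) = 1` -/
def ZB_ker (θ : ℝ) : AddSubgroup ℤ where
  carrier := {k | Complex.exp ((k * θ : ℝ) * Complex.I) = 1}
  zero_mem' := by
    show Complex.exp ((((0 : ℤ) : ℝ) * θ : ℝ) * Complex.I) = 1
    simp
  add_mem' := by
    intro a b ha hb
    have ha' : Complex.exp ((a * θ : ℝ) * Complex.I) = 1 := ha
    have hb' : Complex.exp ((b * θ : ℝ) * Complex.I) = 1 := hb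
    show Complex.exp ((((a + b : ℤ) : ℝ) * θ : ℝ) * Complex.I) = 1
    have e : ((((a + b : ℤ) : ℝ) * θ : ℝ) : ℂ) * Complex.I =
        ((a * θ : ℝ) : ℂ) * Complex.I + ((b * θ : ℝ) : ℂ) * Complex.I := by
      push_cast
      ring
    rw [e, Complex.exp_add, ha', hb', one_mul]
  neg_mem' := by
    intro a ha
    have ha' : Complex.exp ((a * θ : ℝ) * Complex.I) = 1 := ha
    show Complex.exp ((((-a : ℤ) : ℝ) * θ : ℝ) * Complex.I) = 1
    have e : ((((-a : ℤ) : ℝ) * θ : ℝ) : ℂ) * Complex.I =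
        -(((a * θ : ℝ) : ℂ) * Complex.I) := by
      push_cast
      ring
    rw [e, Complex.exp_neg, ha', inv_one]

theorem ZB_mem (θ : ℝ) (k : ℤ) :
    k ∈ ZB_ker θ ↔ Complex.exp ((k * θ : ℝ) * Complex.I) = 1 := Iff.rfl

theorem ZB_ker_iff {a : ℤ} (ha : a ≠ 0) (θ : ℝ) :
    a ∈ ZB_ker θ ↔ ∃ n : ℤ, θ = 2 * Real.pi * n / (a.natAbs : ℝ) := by
  have hm : ((a.natAbs : ℤ) : ℤ) ∈ ZB_ker θ ↔ a ∈ ZB_ker θ := by
    rcases Int.natAbs_eq a with h | h
    · rw [← h]
    · constructor
      · intro h1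
        rw [h]
        exact neg_mem h1
      · intro h1
        rw [h] at h1
        have := neg_mem h1
        rwa [neg_neg] at this
  rw [← hm, ZB_mem, Complex.exp_eq_one_iff]
  have hm0 : (a.natAbs : ℝ) ≠ 0 := by
    have : a.natAbs ≠ 0 := Int.natAbs_ne_zero.2 ha
    exact_mod_cast this
  constructor
  · rintro ⟨n, hn⟩
    refine ⟨n, ?_⟩
    have h2 : (((((a.natAbs : ℤ) : ℝ) * θ : ℝ) : ℂ)) = ((2 * Real.pi * n : ℝ) : ℂ) := by
      have h3 : (((((a.natAbs : ℤ) : ℝ) * θ : ℝ) : ℂ)) * Complex.I =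
          ((2 * Real.pi * n : ℝ) : ℂ) * Complex.I := by
        rw [hn]
        push_cast
        ring
      exact mul_right_cancel₀ Complex.I_ne_zero h3
    have h4 : ((a.natAbs : ℤ) : ℝ) * θ = 2 * Real.pi * n := by exact_mod_cast h2
    rw [eq_div_iff hm0, ← h4, Int.cast_natCast, mul_comm]
  · rintro ⟨n, hn⟩
    refine ⟨n, ?_⟩
    have h4 : ((a.natAbs : ℤ) : ℝ) * θ = 2 * Real.pi * n := by
      rw [hn, Int.cast_natCast]
      field_simp
    rw [h4]
    push_cast
    ring

theorem Z_gcd (S : Set ℤ) : (∀ k ∈ S, k = 0) ∨ ∃ m : ℕ, 0 < m ∧ ∀ θ : ℝ,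
    (∀ k ∈ S, Complex.exp ((k * θ : ℝ) * Complex.I) = 1) ↔
      ∃ n : ℤ, θ = 2 * Real.pi * n / m := by
  by_cases h : ∀ k ∈ S, k = 0
  · exact Or.inl h
  · right
    push Not at h
    obtain ⟨k, hk, hk0⟩ := h
    obtain ⟨a, ha⟩ := Int.subgroup_cyclic (AddSubgroup.closure S)
    rw [← AddSubgroup.zmultiples_eq_closure] at ha
    have hkm : k ∈ AddSubgroup.zmultiples a := by
      rw [← ha]
      exact AddSubgroup.subset_closure hk
    have ha0 : a ≠ 0 := by
      rintro rfl
      obtain ⟨j, hj⟩ := AddSubgroup.mem_zmultiples_iff.1 hkm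
      apply hk0
      rw [← hj, smul_zero]
    refine ⟨a.natAbs, Int.natAbs_pos.2 ha0, fun θ => ?_⟩
    rw [← ZB_ker_iff ha0]
    constructor
    · intro h1
      have h2 : AddSubgroup.closure S ≤ ZB_ker θ := (AddSubgroup.closure_le _).2 h1
      rw [ha] at h2
      exact h2 (AddSubgroup.mem_zmultiples a)
    · intro h1 k' hk'
      have h2 : AddSubgroup.zmultiples a ≤ ZB_ker θ := by
        rw [AddSubgroup.zmultiples_le]
        exact h1
      rw [← ha] at h2
      exact h2 (AddSubgroup.subset_closure hk')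

end

end Pool.Agent.Lib_helper25.PV
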