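import Pool.Agent.Lib_helper68.PV.ZE

/-! Project PV (MP_b08f5f_an), zero-one law with a carrier: the limit law of the vortices seen from
their centre is either invariant under all turns, or it lives on a Borel set in which the
configuration modulo rotation determines the configuration up to turns by `2 π / m`. -/

set_option autoImplicit false

namespace Pool.Agent.Lib_helper23.PV

open MeasureTheory Filter Topology Set
open scoped ComplexConjugate
open Pool.Agent.Lib_helper25.PV

noncomputable section

/-- the assertion at `z` -/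
def ZF_law {N : ℕ} (V : VFlow N) (z : Conf N) : Prop :=
  ∃ ν : Measure (Conf N),
    IsProbabilityMeasure ν ∧
    (∀ Ψ : Conf N → ℝ, Continuous Ψ → Tendsto (fun T : ℝ => T⁻¹ *
      ∫ t in (0 : ℝ)..T, Ψ (seen 0 (V.φ t z))) atTop (𝓝 (∫ w, Ψ w ∂ν))) ∧
    ((∀ θ : ℝ, ν.map (Zturn θ) = ν) ∨ ∃ m : ℕ, 0 < m ∧
      ν.map (Zturn (2 * Real.pi / m)) = ν ∧
      ∃ S : Set (Conf N), MeasurableSet S ∧ ν Sᶜ = 0 ∧
        ∀ y ∈ S, ∀ θ : ℝ, Zturn θ y ∈ S ↔ ∃ n : ℤ, θ = 2 * Real.pi * n / m)

theorem ZF_of {N : ℕ} (V : VFlow N) {z : Conf N} {R : ℝ} (hz : inertia z ≤ R)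
    (L : (Fin N → ℕ) → (Fin N → ℕ) → Conf N → ℂ) (hLm : ∀ a b, Measurable (L a b))
    (hturn : ∀ a b θ w, L a b (Zturn θ w) =
      Complex.exp (((((∑ i, a i : ℕ) : ℤ) - ((∑ i, b i : ℕ) : ℤ) : ℤ) * θ : ℝ) * Complex.I) *
        L a b w)
    (hseen : ∀ a b w, L a b (seen 0 w) = L a b w)
    (hlim : ∀ a b, Tendsto (fun T : ℝ => (T : ℂ)⁻¹ * ∫ t in (0 : ℝ)..T, ZE_f a b (V.φ t z)) atTop
      (𝓝 (L a b z)))
    {κ : Measure (Conf N)} [IsProbabilityMeasure κ] (hκR : ∀ᵐ w ∂κ, inertia w ≤ R)
    (hint : ∀ a b, ∫ w, ZE_f a b w ∂κ = L a b z)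
    (hconst : ∀ a b, ∀ᵐ w ∂κ, L a b w = L a b z) : ZF_law V z := by
  have hs : Measurable (seen (N := N) 0) := ZE_seen0_continuous.measurable
  set ν : Measure (Conf N) := κ.map (seen 0) with hν
  have : IsProbabilityMeasure ν := Measure.isProbabilityMeasure_map hs.aemeasurable
  have hballm : MeasurableSet {w : Conf N | ∀ i, ‖w i‖ ≤ 2 * Real.sqrt R} := by
    have : {w : Conf N | ∀ i, ‖w i‖ ≤ 2 * Real.sqrt R} =
        ⋂ i, {w : Conf N | ‖w i‖ ≤ 2 * Real.sqrt R} := by
      ext w
      simp
    rw [this]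
    exact MeasurableSet.iInter fun i =>
      measurableSet_le (measurable_norm.comp (measurable_pi_apply i)) measurable_const
  have hνR : ∀ᵐ w ∂ν, ∀ i, ‖w i‖ ≤ 2 * Real.sqrt R := by
    rw [hν, ae_map_iff hs.aemeasurable hballm]
    filter_upwards [hκR] with w hw i using ZE_norm hw i
  have hνint : ∀ a b, ∫ w, mono a b w ∂ν = L a b z := by
    intro a b
    rw [hν, integral_map hs.aemeasurable (mono a b).continuous.aestronglyMeasurable]
    exact hint a b
  have hνconst : ∀ a b, ∀ᵐ w ∂ν, L a b w = L a b z := by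
    intro a b
    rw [hν, ae_map_iff hs.aemeasurable (measurableSet_eq_fun (hLm a b) measurable_const)]
    filter_upwards [hconst a b] with w hw
    rw [hseen, hw]
  have htm : ∀ θ, Measurable (Zturn (N := N) θ) := fun θ => (ZE_turn_continuous θ).measurable
  -- invariance when all weights that occur are killed by the turn
  have hinv : ∀ θ : ℝ, (∀ a b, L a b z ≠ 0 →
      Complex.exp (((((∑ i, a i : ℕ) : ℤ) - ((∑ i, b i : ℕ) : ℤ) : ℤ) * θ : ℝ) * Complex.I) =
        1) → ν.map (Zturn θ) = ν := by
    intro θ hθ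
    have : IsProbabilityMeasure (ν.map (Zturn θ)) :=
      Measure.isProbabilityMeasure_map (htm θ).aemeasurable
    refine Z_ext (R := 2 * Real.sqrt R) ?_ hνR fun a b => ?_
    · rw [ae_map_iff (htm θ).aemeasurable hballm]
      filter_upwards [hνR] with w hw i
      rw [Zturn, norm_mul, Complex.norm_exp_ofReal_mul_I, one_mul]
      exact hw i
    · rw [integral_map (htm θ).aemeasurable (mono a b).continuous.aestronglyMeasurable]
      simp only [ZE_mono_turn]
      rw [integral_const_mul, hνint]
      by_cases h : L a b z = 0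
      · rw [h, mul_zero]
      · rw [hθ a b h, one_mul]
  refine ⟨ν, inferInstance, fun Ψ hΨ => ?_, ?_⟩
  · have hx : Continuous fun t => seen 0 (V.φ t z) := ZE_seen0_continuous.comp (V.cont z)
    exact Z_tendsto hx (R := 2 * Real.sqrt R)
      (fun t i => ZE_norm (by rw [V.inert]; exact hz) i) hνR
      (fun a b => by
        rw [hνint]
        exact hlim a b) hΨ
  · set W : Set ℤ := {k | ∃ a b, L a b z ≠ 0 ∧ k = ((∑ i, a i : ℕ) : ℤ) - ((∑ i, b i : ℕ) : ℤ)}
      with hW
    rcases Z_gcd W with h0 | ⟨m, hm, hmW⟩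
    · left
      intro θ
      refine hinv θ fun a b hab => ?_
      rw [h0 _ ⟨a, b, hab, rfl⟩]
      simp
    · right
      refine ⟨m, hm, ?_, ⋂ a, ⋂ b, {w | L a b w = L a b z}, ?_, ?_, ?_⟩
      · have h1 := (hmW (2 * Real.pi / m)).mpr ⟨1, by push_cast; ring⟩
        exact hinv _ fun a b hab => h1 _ ⟨a, b, hab, rfl⟩
      · exact MeasurableSet.iInter fun a => MeasurableSet.iInter fun b =>
          measurableSet_eq_fun (hLm a b) measurable_const
      · rw [measure_eq_zero_iff_ae_notMem]
        have h2 : ∀ᵐ w ∂ν, ∀ a b, L a b w = L a b z := by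
          rw [ae_all_iff]
          intro a
          rw [ae_all_iff]
          exact hνconst a
        filter_upwards [h2] with w hw hmem
        apply hmem
        rw [mem_iInter]
        intro a
        rw [mem_iInter]
        exact hw a
      · intro y hy θ
        have hy' : ∀ a b, L a b y = L a b z := fun a b => by
          have h3 := mem_iInter.1 hy a
          exact mem_iInter.1 h3 b
        rw [← hmW θ]
        constructor
        · rintro h k ⟨a, b, hab, rfl⟩
          have h3 : L a b (Zturn θ y) = L a b z := mem_iInter.1 (mem_iInter.1 h a) b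
          rw [hturn, hy'] at h3
          exact mul_right_cancel₀ hab (by rw [h3, one_mul])
        · intro h
          rw [mem_iInter]
          intro a
          rw [mem_iInter]
          intro b
          show L a b (Zturn θ y) = L a b z
          rw [hturn, hy']
          by_cases hab : L a b z = 0
          · rw [hab, mul_zero]
          · rw [h _ ⟨a, b, hab, rfl⟩, one_mul]

theorem ZF_ae {N : ℕ} (V : VFlow N) : ∀ᵐ z : Conf N, ZF_law V z := by
  choose L hLm hturn hseen hlim using fun a b => ZE_L V a b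
  have hlim' : ∀ᵐ z, ∀ a b, Tendsto (fun T : ℝ => (T : ℂ)⁻¹ * ∫ t in (0 : ℝ)..T,
      ZE_f a b (V.φ t z)) atTop (𝓝 (L a b z)) := by
    rw [ae_all_iff]
    intro a
    rw [ae_all_iff]
    exact hlim a
  have key : ∀ n : ℕ, ∀ᵐ z : Conf N, inertia z ≤ n → ZF_law V z := by
    intro n
    set B : Set (Conf N) := B3c_ball N n with hB
    have hBm : MeasurableSet B := B3c_meas N n
    have : IsFiniteMeasure (volume.restrict B) :=
      ⟨by rw [Measure.restrict_apply_univ]; exact B3c_fin N n⟩
    have hpre : ∀ t, V.φ t ⁻¹' B = B := by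
      intro t
      ext z
      show inertia (V.φ t z) ≤ n ↔ inertia z ≤ n
      rw [V.inert]
    have hmp : ∀ t, MeasurePreserving (V.φ t) (volume.restrict B) (volume.restrict B) := by
      intro t
      have h1 := (V.mp t).restrict_preimage hBm
      rw [hpre t] at h1
      exact h1
    obtain ⟨κ, hκ1, hκ2, hκ3⟩ := Z_kernel (volume.restrict B) V.φ V.zero V.add V.meas hmp
    have h1 : ∀ᵐ z ∂(volume.restrict B), ∀ᵐ w ∂(κ z), inertia w ≤ n := by
      have h2 := hκ2 Bᶜ (by rw [Measure.restrict_apply hBm.compl, compl_inter_self,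
        measure_empty])
      filter_upwards [h2] with z hz
      have h3 := measure_eq_zero_iff_ae_notMem.mp hz
      filter_upwards [h3] with w hw
      by_contra h4
      exact hw h4
    have h2 : ∀ a b, (∀ᵐ z ∂(volume.restrict B), ∫ w, ZE_f a b w ∂(κ z) = L a b z) ∧
        ∀ᵐ z ∂(volume.restrict B), ∀ᵐ w ∂(κ z), L a b w = L a b z := by
      intro a b
      obtain ⟨C, hC⟩ := ZE_f_bdd a b n
      have hC0 : ∀ z, ‖B.indicator (ZE_f a b) z‖ ≤ max C 0 := by
        intro z
        by_cases hz : z ∈ B
        · rw [indicator_of_mem hz]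
          exact (hC z hz).trans (le_max_left _ _)
        · rw [indicator_of_notMem hz, norm_zero]
          exact le_max_right _ _
      have h3 := hκ3 (B.indicator (ZE_f a b)) (max C 0) (L a b)
        ((ZE_f_continuous a b).measurable.indicator hBm) hC0 (hLm a b) (by
          filter_upwards [ae_restrict_of_ae (hlim a b), ae_restrict_mem hBm] with z hz hzB
          refine hz.congr fun T => ?_
          congr 1
          refine intervalIntegral.integral_congr fun t _ => ?_
          have h4 : V.φ t z ∈ B := by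
            have : z ∈ V.φ t ⁻¹' B := by
              rw [hpre t]
              exact hzB
            exact this
          exact (indicator_of_mem h4 _).symm)
      refine ⟨?_, h3.2⟩
      filter_upwards [h3.1, h1] with z hz hzB
      rw [← hz]
      refine integral_congr_ae ?_
      filter_upwards [hzB] with w hw
      exact (indicator_of_mem (show w ∈ B from hw) _).symm
    have h3 : ∀ᵐ z ∂(volume.restrict B), ∀ a b, ∫ w, ZE_f a b w ∂(κ z) = L a b z := by
      rw [ae_all_iff]
      intro a
      rw [ae_all_iff]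
      exact fun b => (h2 a b).1
    have h4 : ∀ᵐ z ∂(volume.restrict B), ∀ a b, ∀ᵐ w ∂(κ z), L a b w = L a b z := by
      rw [ae_all_iff]
      intro a
      rw [ae_all_iff]
      exact fun b => (h2 a b).2
    have h5 : ∀ᵐ z ∂(volume.restrict B), ZF_law V z := by
      filter_upwards [ae_restrict_of_ae hlim', ae_restrict_mem hBm, h1, h3, h4]
        with z hz1 hz2 hz3 hz4 hz5
      have := hκ1 z
      exact ZF_of V (R := n) hz2 L hLm hturn hseen hz1 hz3 hz4 hz5
    rw [ae_restrict_iff' hBm] at h5
    exact h5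
  rw [← ae_all_iff] at key
  filter_upwards [key] with z hz
  obtain ⟨n, hn⟩ := exists_nat_ge (inertia z)
  exact hz n hn

end

end Pool.Agent.Lib_helper23.PV
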